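import Pool.Agent.Helper78.DT.Fin

/-!
# A pointwise density theorem for the cusp forms that are not tempered at `p`

For a spherical cusp form `φ` on `PGL_2` over `ℚ` let `θ_{φ,p} = |log_p |α_p||`, so that `φ` is tempered at `p` if and
only if `θ_{φ,p} = 0`. We prove, unconditionally and from the definition of a cusp form (no trace formula, no
equidistribution theorem and no property of `L`-functions is assumed), with one absolute constant `C`, that for every
`T ≥ 2`, every prime `p` and every `θ ≥ 0` the forms `φ_j` of an orthonormal family with Laplace eigenvalues at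
most `T²` which are not tempered at `p`, with `θ_{φ_j,p} ≥ θ`, satisfy

  `∑ |φ_j(z)|² ≤ C p^(3θ) T^(2 - θ/4) (log p / log T)³`

at **every** point `z` of the fundamental domain with `im z ≤ √T`, and that their number is at most
`C p^(3θ) T^(2 - θ/4) (log p / log T)³`. (Without the condition at `p` both quantities have the order `T²`, by the local
Weyl law.) Consequently at most `C T² x (log x / log T)³` of the forms are non-tempered at some prime `p ≤ x`; for
`x = (log T)^(3 - ε)` this is `o(T²)`.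

## The idea

Let `𝒯 = T_p` be normalised by `p^(-1/2)`, so that its eigenvalue is `λ = α + α⁻¹`, real and of absolute value `≥ 2` at
the forms in question, and let `V_n = U_n(𝒯 / 2)` with the Chebyshev polynomials `U_n`. Let
`P = ∑_{k ≤ M} (2k+1) V_{2k}`, whose eigenvalue is `≥ K/2 · |α|^(M/2)`, `K = ∑_{k ≤ M} (2k+1)²`, by the inequality of
Chebyshev. Let `B` be the disc with centre `z` and radius `im z / 8T`, and `κ` the sum of its translates. For `w = P v`
one has `∫_B |w|² ≤ ⟨|v|, P(κ|w|)⟩`, as the coefficients of `P` in the `V_n` are positive and the `V_n` are symmetric, and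
`‖P(κ|w|)‖² = ∑ (2k+1)(2k'+1) ∑_r ⟨V_r(κ|w|), κ|w|⟩`, where `⟨V_r(κ|w|), κ|w|⟩ ≤ p^(-r/2) N_r ∫_B |w|²` with
the number `N_r` of the integer matrices of determinant `p^r` which map a point of `B` to a point of `B`. If
`26 p^r ≤ T` all these matrices are in one quadratic order of negative discriminant (or scalar), and their traces and
lower left entries give lattice points on an ellipse `X² + κ' Y² = 4 p^r`; by Jarník's argument there are at most
`14 (2 p^(r/2))^(2/3)` of them. Hence `∫_B |P v|² ≤ 1400 K ‖v‖²`: on a disc of radius `1/T` the polynomial `P` is bounded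
as if it acted on one vertex of a tree. With the Sobolev inequality on `B` and duality this gives
`∑ |φ_j(z)|² ≤ C T² K / (K/2 · p^(θM/2))²`, and `p^(4M) ≤ T/26 < p^(4M+4)`. The number of forms is obtained by integration
over `z`, as only a small part of the mass of a form is at heights `≥ √T`.
-/

namespace Pool.Agent.Results.MP_fa98d2_nt.DensityTheoremLevelOne

open MeasureTheory
open scoped ComplexConjugate

/-- `f`, a function on the upper half-plane `{z : ℂ | 0 < z.im}` (its values elsewhere play no role), is a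
Hecke-Maass cusp form of level one with the Laplace eigenvalue `Λ` and the Satake parameters
`α p, (α p)⁻¹` at the primes `p`. The even ones, that is, those with `f (-conj z) = f z`, are the spherical cusp forms on
`PGL_2` over `ℚ`. -/
structure IsHeckeMaassCuspForm (f : ℂ → ℂ) (Λ : ℂ) (α : ℕ → ℂ) : Prop where
  /-- `f` is smooth -/
  smooth : ContDiffOn ℝ (⊤ : ℕ∞) f {z : ℂ | 0 < z.im}
  /-- `f` is invariant under `z ↦ z + 1` -/
  translate : ∀ z : ℂ, 0 < z.im → f (z + 1) = f z
  /-- `f` is invariant under `z ↦ -1/z` -/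
  invert : ∀ z : ℂ, 0 < z.im → f (-1 / z) = f z
  /-- `-y² (∂²/∂x² + ∂²/∂y²) f = Λ f` -/
  laplace : ∀ z : ℂ, 0 < z.im → -((z.im : ℂ) ^ 2 * (deriv (deriv (fun t : ℝ => f (z + t))) 0
    + deriv (deriv (fun t : ℝ => f (z + t * Complex.I))) 0)) = Λ * f z
  /-- `f` is cuspidal -/
  cuspidal : ∀ y : ℝ, 0 < y → ∫ x in (0 : ℝ)..1, f (x + y * Complex.I) = 0
  /-- `f` is square integrable on the fundamental domain, for the measure `dx dy / y²` -/
  squareIntegrable : IntegrableOn (fun z : ℂ => ‖f z‖ ^ 2 / z.im ^ 2)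
    {z : ℂ | 0 < z.im ∧ |z.re| ≤ 1 / 2 ∧ 1 ≤ ‖z‖}
  /-- `f` is not zero -/
  nonzero : ∃ z : ℂ, 0 < z.im ∧ f z ≠ 0
  /-- the Satake parameters are not zero -/
  satake_ne_zero : ∀ p : ℕ, p.Prime → α p ≠ 0
  /-- `f` is an eigenfunction of the Hecke operator `T_p`, with the eigenvalue `α p + (α p)⁻¹` if `T_p` is
  normalised by the factor `p^(-1/2)` -/
  hecke : ∀ p : ℕ, p.Prime → ∀ z : ℂ, 0 < z.im →
    f (p * z) + ∑ b ∈ Finset.range p, f ((z + b) / p) = (√(p : ℝ) : ℂ) * (α p + (α p)⁻¹) * f z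

/-- the fundamental domain of `SL(2, ℤ)` -/
def fundamentalDomain : Set ℂ := {z : ℂ | 0 < z.im ∧ |z.re| ≤ 1 / 2 ∧ 1 ≤ ‖z‖}

/-- `f i` (`i ∈ ι`) is a finite family of Hecke-Maass cusp forms of level one, orthonormal in the `L²`-space of the
fundamental domain with the measure `dx dy / y²`, with the Laplace eigenvalues `Λ i` of absolute value at most `T²` and
the Satake parameters `α i p, (α i p)⁻¹` -/
structure IsOrthonormalFamily {ι : Type} [Fintype ι] [DecidableEq ι] (f : ι → ℂ → ℂ) (Λ : ι → ℂ) (α : ι → ℕ → ℂ)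
    (T : ℝ) : Prop where
  /-- each member is a Hecke-Maass cusp form -/
  form : ∀ i, IsHeckeMaassCuspForm (f i) (Λ i) (α i)
  /-- the family is orthonormal -/
  orthonormal : ∀ i j, ∫ z in fundamentalDomain, f i z * conj (f j z) / (z.im : ℂ) ^ 2 = if i = j then 1 else 0
  /-- the eigenvalues are at most `T²` -/
  eigenvalue : ∀ i, ‖Λ i‖ ≤ T ^ 2

/-- There is an absolute constant `C` such that for every `T ≥ 2` and every orthonormal family of Hecke-Maass cusp forms
of level one with Laplace eigenvalues at most `T²`: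
1. for every prime `p`, every `θ ≥ 0` and every set `s` of members which are not tempered at `p` and for which
   `|log_p |α_p|| ≥ θ`,
   * at every point `z` of the fundamental domain with `im z ≤ √T` the sum of `|f i z|²` over `s` is at most
     `C p^(3θ) T^(2 - θ/4) (log p / log T)³`,
   * `s` has at most `C p^(3θ) T^(2 - θ/4) (log p / log T)³` elements;
2. for every `x ≥ 2` at most `C T² x (log x / log T)³` members are non-tempered at some prime `p ≤ x`. -/
theorem result : ∃ C : ℝ, ∀ T : ℝ, 2 ≤ T → ∀ (ι : Type) [Fintype ι] [DecidableEq ι] (f : ι → ℂ → ℂ) (Λ : ι → ℂ)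
    (α : ι → ℕ → ℂ), IsOrthonormalFamily f Λ α T →
    (∀ p : ℕ, p.Prime → ∀ θ : ℝ, 0 ≤ θ → ∀ s : Finset ι,
      (∀ i ∈ s, ‖α i p‖ ≠ 1 ∧ θ ≤ |Real.logb p ‖α i p‖|) →
      (∀ z ∈ fundamentalDomain, z.im ≤ √T →
        ∑ i ∈ s, ‖f i z‖ ^ 2 ≤ C * ((p : ℝ) ^ (3 * θ) * T ^ (2 - θ / 4) * (Real.log p / Real.log T) ^ 3)) ∧
      (s.card : ℝ) ≤ C * ((p : ℝ) ^ (3 * θ) * T ^ (2 - θ / 4) * (Real.log p / Real.log T) ^ 3)) ∧
    (∀ x : ℝ, 2 ≤ x → ∀ s : Finset ι, (∀ i ∈ s, ∃ p : ℕ, p.Prime ∧ (p : ℝ) ≤ x ∧ ‖α i p‖ ≠ 1) →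
      (s.card : ℝ) ≤ C * (T ^ 2 * x * (Real.log x / Real.log T) ^ 3)) := by
  classical
  obtain ⟨C, hC, hcount⟩ := Helper78.DT.count_all
  refine ⟨max C (123289600 * 338 ^ 2), fun T hT ι _ _ f Λ α h => ?_⟩
  have hfam : Helper78.DT.Fam f Λ α T :=
    { fam :=
        { raw := fun i =>
            ⟨(h.form i).smooth, (h.form i).translate, (h.form i).invert, (h.form i).laplace,
              (h.form i).cuspidal, (h.form i).squareIntegrable, (h.form i).nonzero, (h.form i).hecke⟩
          orth := h.orthonormal }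
      ne := fun i q hq => (h.form i).satake_ne_zero q hq
      le := h.eigenvalue }
  have hT1 : 1 ≤ T := by linarith
  have hlT : 0 < Real.log T := Real.log_pos (by linarith)
  have key : ∀ p : ℕ, p.Prime → ∀ θ : ℝ, 0 ≤ θ → ∀ s : Finset ι,
      (∀ i ∈ s, ‖α i p‖ ≠ 1 ∧ θ ≤ |Real.logb p ‖α i p‖|) →
      (s.card : ℝ) ≤ C * ((p : ℝ) ^ (3 * θ) * T ^ (2 - θ / 4) * (Real.log p / Real.log T) ^ 3) :=
    fun p hp θ hθ s hs => hcount hfam hT hθ hp s hs
  refine ⟨fun p hp θ hθ s hs => ⟨fun z hz hzT => ?_, ?_⟩, fun x hx s hs => ?_⟩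
  · have hb := Helper78.DT.bd_nonneg (θ := θ) hT1 p
    have hz0 : (⟨z, hz.1⟩ : UpperHalfPlane) ∈ (ModularGroup.fd : Set UpperHalfPlane) := by
      rw [← Helper78.DT.DD_eq]
      exact hz
    have h1 := Helper78.DT.point_all hfam hT hθ hp s hs hz0 (by
      have h2 : z.im ^ 2 ≤ √T ^ 2 := pow_le_pow_left₀ hz.1.le hzT 2
      rw [Real.sq_sqrt (by linarith)] at h2
      exact h2)
    refine h1.trans (mul_le_mul_of_nonneg_right (le_max_right _ _) hb)
  · have hb := Helper78.DT.bd_nonneg (θ := θ) hT1 p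
    exact (key p hp θ hθ s hs).trans (mul_le_mul_of_nonneg_right (le_max_left _ _) hb)
  · have hlx : 0 ≤ Real.log x := Real.log_nonneg (by linarith)
    set R := T ^ 2 * (Real.log x / Real.log T) ^ 3 with hR
    have hR0 : 0 ≤ R := by rw [hR]; positivity
    set P := (Finset.range (⌊x⌋₊ + 1)).filter (fun p => p.Prime) with hP
    have hsub : s ⊆ P.biUnion (fun p => s.filter (fun i => ‖α i p‖ ≠ 1)) := by
      intro i hi
      obtain ⟨p, hp, hpx, hne⟩ := hs i hi
      rw [Finset.mem_biUnion]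
      refine ⟨p, ?_, Finset.mem_filter.2 ⟨hi, hne⟩⟩
      rw [hP, Finset.mem_filter, Finset.mem_range]
      exact ⟨Nat.lt_succ_of_le (Nat.le_floor hpx), hp⟩
    have h1 : (s.card : ℝ) ≤ ∑ p ∈ P, ((s.filter (fun i => ‖α i p‖ ≠ 1)).card : ℝ) := by
      have := (Finset.card_le_card hsub).trans Finset.card_biUnion_le
      exact_mod_cast this
    have h2 : ∀ p ∈ P, ((s.filter (fun i => ‖α i p‖ ≠ 1)).card : ℝ) ≤ C * R := by
      intro p hp
      rw [hP, Finset.mem_filter, Finset.mem_range] at hp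
      have h3 := key p hp.2 0 le_rfl (s.filter (fun i => ‖α i p‖ ≠ 1)) (fun i hi => by
        rw [Finset.mem_filter] at hi
        exact ⟨hi.2, abs_nonneg _⟩)
      refine h3.trans (mul_le_mul_of_nonneg_left ?_ hC.le)
      have hpx : (p : ℝ) ≤ x := (Nat.le_floor_iff (by linarith)).1 (Nat.lt_succ_iff.1 hp.1)
      have hp0 : (0 : ℝ) < p := by exact_mod_cast hp.2.pos
      have hlp : 0 ≤ Real.log p := Real.log_natCast_nonneg p
      have h4 : Real.log p ≤ Real.log x := Real.log_le_log hp0 hpx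
      rw [mul_zero, Real.rpow_zero, one_mul, zero_div, sub_zero, Real.rpow_two, hR]
      gcongr
    have h5 : (P.card : ℝ) ≤ x := by
      have h6 : P ⊆ Finset.Icc 1 ⌊x⌋₊ := by
        intro p hp
        rw [hP, Finset.mem_filter, Finset.mem_range] at hp
        rw [Finset.mem_Icc]
        exact ⟨hp.2.one_lt.le, Nat.lt_succ_iff.1 hp.1⟩
      have h7 := Finset.card_le_card h6
      rw [Nat.card_Icc, Nat.add_sub_cancel] at h7
      calc (P.card : ℝ) ≤ (⌊x⌋₊ : ℝ) := by exact_mod_cast h7
        _ ≤ x := Nat.floor_le (by linarith)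
    calc (s.card : ℝ) ≤ ∑ p ∈ P, ((s.filter (fun i => ‖α i p‖ ≠ 1)).card : ℝ) := h1
      _ ≤ ∑ _p ∈ P, C * R := Finset.sum_le_sum h2
      _ = P.card * (C * R) := by rw [Finset.sum_const, nsmul_eq_mul]
      _ ≤ x * (C * R) := mul_le_mul_of_nonneg_right h5 (by positivity)
      _ = C * (T ^ 2 * x * (Real.log x / Real.log T) ^ 3) := by rw [hR]; ring
      _ ≤ _ := mul_le_mul_of_nonneg_right (le_max_left _ _) (by positivity)

end Pool.Agent.Results.MP_fa98d2_nt.DensityTheoremLevelOne
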