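import Pool.Agent.Helper78.RT.Cor

/-!
# The least prime at which a spherical cusp form on `PGL_2` is tempered

The Ramanujan conjecture for `PGL_2` over `ℚ` says that a spherical cusp form `φ` is tempered at every prime.
We prove, unconditionally and from the definition of a cusp form (no `L`-function or other analytic input is
assumed), a bound for the least prime at which `φ` is tempered, uniform in the Laplace eigenvalue `Λ`:

  there is a prime `p ≤ C (1 + |Λ|)^(1/6) (log (3 + |Λ|))^C` with `φ` tempered at `p`,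

and more precisely, for every `x ≥ 1`,

  `∑_{p ≤ x, φ tempered at p} log p / p ≥ 3/4 log x - 1/8 log (1 + |Λ|) - C log (3 + log x + log (1 + |Λ|))`,

with one absolute constant `C`. This is the analogue for the Ramanujan conjecture of the theorem of Linnik and
Vinogradov on the least prime quadratic residue. If `Λ = 1/4 + t^2`, the bound is `t^(1/3)` up to logarithms.

## The idea

Let `λ(n)` be the Hecke eigenvalues, `c_n(y)` the Fourier coefficients of `φ` on the horocycle of height `y`,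
`w(u) = |c_1(u)|^2 + |c_{-1}(u)|^2` and `V(r) = ∫_r^∞ w(u) du / u^2`. The Hecke relations give
`c_{±n}(y) = λ(n) n^(-1/2) c_{±1}(n y)`, so by Parseval the mass of `|φ|^2` in the strip above the height `y` is
`∑ λ(n)^2 V(n y)`. Unfolding, `J(y) = ∑ r(n) V(n y)`, with `∑ r(n) n^(-s) = ζ(2s) ∑ λ(n)^2 n^(-s)`, is the integral
over the modular surface of `|φ(z)|^2` times the number of nonzero vectors of length `≤ y^(-1/2)` of the lattice of
`z`, hence `J(y) = (π / y) ‖φ‖^2 + O(y^(-1/2) E)`, where `E` is the mass weighted by `√(im z)`. A pigeonhole argument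
with the primes (escape of mass) gives `E ≪ ‖φ‖^2 log^2`, uniformly in `φ`; for this and in what follows the only
information on `V` is its exponential decay for `r ≥ 2 (1 + √|Λ|)`, a consequence of the convexity of `w`. Finally
`r(n) log n ≥ ∑_{p | n} λ(p)^2 log p · r(n / p)` for the Hecke eigenvalues, whence
`∑_{p ≤ x} λ(p)^2 (log p) J(p y) ≤ ∑ r(n) (log n) V(n y) ≤ (log (√|Λ| / y) + ...) J(y)`, and `y` a little smaller than
`1 / x` gives `∑_{p ≤ x} λ(p)^2 log p / p ≤ log x + 1/2 log (1 + |Λ|) + ...`. At a prime where `φ` is not tempered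
`λ(p)^2 ≥ 4` (the eigenvalues are real, as the Hecke operators are symmetric), and Mertens' theorem concludes.
-/

namespace Pool.Agent.Results.MP_fa98d2_nt.LeastTemperedPrime

open MeasureTheory

/-- `f`, a function on the upper half-plane `{z : ℂ | 0 < z.im}` (its values elsewhere play no role), is a
Hecke-Maass cusp form of level one with the Laplace eigenvalue `Λ` and the Satake parameters
`α p, (α p)⁻¹` at the primes `p`. The even ones, that is, those with `f (-conj z) = f z`, are the spherical cusp forms on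
`PGL_2` over `ℚ`. -/
structure IsHeckeMaassCuspForm (f : ℂ → ℂ) (Λ : ℂ) (α : ℕ → ℂ) : Prop where
  /-- `f` is smooth -/
  smooth : ContDiffOn ℝ (⊤ : ℕ∞) f {z : ℂ | 0 < z.im}
  /-- `f` is invariant under `z ↦ z + 1` -/
  translate : ∀ z : ℂ, 0 < z.im → f (z + 1) = f z
  /-- `f` is invariant under `z ↦ -1/z` -/
  invert : ∀ z : ℂ, 0 < z.im → f (-1 / z) = f z
  /-- `-y² (∂²/∂x² + ∂²/∂y²) f = Λ f` -/
  laplace : ∀ z : ℂ, 0 < z.im → -((z.im : ℂ) ^ 2 * (deriv (deriv (fun t : ℝ => f (z + t))) 0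
    + deriv (deriv (fun t : ℝ => f (z + t * Complex.I))) 0)) = Λ * f z
  /-- `f` is cuspidal -/
  cuspidal : ∀ y : ℝ, 0 < y → ∫ x in (0 : ℝ)..1, f (x + y * Complex.I) = 0
  /-- `f` is square integrable on the fundamental domain, for the measure `dx dy / y²` -/
  squareIntegrable : IntegrableOn (fun z : ℂ => ‖f z‖ ^ 2 / z.im ^ 2)
    {z : ℂ | 0 < z.im ∧ |z.re| ≤ 1 / 2 ∧ 1 ≤ ‖z‖}
  /-- `f` is not zero -/
  nonzero : ∃ z : ℂ, 0 < z.im ∧ f z ≠ 0
  /-- the Satake parameters are not zero -/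
  satake_ne_zero : ∀ p : ℕ, p.Prime → α p ≠ 0
  /-- `f` is an eigenfunction of the Hecke operator `T_p`, with the eigenvalue `α p + (α p)⁻¹` if `T_p` is
  normalised by the factor `p^(-1/2)` -/
  hecke : ∀ p : ℕ, p.Prime → ∀ z : ℂ, 0 < z.im →
    f (p * z) + ∑ b ∈ Finset.range p, f ((z + b) / p) = (√(p : ℝ) : ℂ) * (α p + (α p)⁻¹) * f z

/-- There is an absolute constant `C` such that for every Hecke-Maass cusp form of level one, with the Laplace
eigenvalue `Λ` and the Satake parameters `α p, (α p)⁻¹`: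
* for every `x ≥ 1` the sum of `log p / p` over the primes `p ≤ x` at which the form is tempered is at least
  `3/4 log x - 1/8 log (1 + |Λ|) - C log (3 + log x + log (1 + |Λ|))`;
* in particular the form is tempered at a prime `p ≤ C (1 + |Λ|)^(1/6) (log (3 + |Λ|))^C`. -/
theorem result : ∃ C : ℝ, ∀ (f : ℂ → ℂ) (Λ : ℂ) (α : ℕ → ℂ), IsHeckeMaassCuspForm f Λ α →
    (∀ x : ℝ, 1 ≤ x →
      3 / 4 * Real.log x - 1 / 8 * Real.log (1 + ‖Λ‖) - C * Real.log (3 + Real.log x + Real.log (1 + ‖Λ‖)) ≤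
        ∑ p ∈ (Finset.range (⌊x⌋₊ + 1)).filter (fun p => p.Prime ∧ ‖α p‖ = 1), Real.log p / p) ∧
    ∃ p : ℕ, p.Prime ∧ ‖α p‖ = 1 ∧
      (p : ℝ) ≤ C * (1 + ‖Λ‖) ^ (1 / 6 : ℝ) * Real.log (3 + ‖Λ‖) ^ C := by
  obtain ⟨C1, hC1, h1⟩ := Helper78.RT.tempered_lower
  obtain ⟨C2, hC2, h2⟩ := Helper78.RT.least_tempered
  refine ⟨max C1 C2, fun f Λ α h => ?_⟩
  have hraw : Helper78.RT.Raw f Λ (fun p => α p + (α p)⁻¹) :=
    ⟨h.smooth, h.translate, h.invert, h.laplace, h.cuspidal, h.squareIntegrable, h.nonzero, h.hecke⟩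
  have hT := norm_nonneg Λ
  constructor
  · intro x hx
    have h3 := h1 f Λ α h.satake_ne_zero hraw x hx
    have h4 : Helper78.RT.TX α x =
        (Finset.range (⌊x⌋₊ + 1)).filter (fun p => p.Prime ∧ ‖α p‖ = 1) := by
      unfold Helper78.RT.TX Helper78.RT.PX
      rw [Finset.filter_filter]
    rw [h4] at h3
    refine le_trans ?_ h3
    have h5 : 0 ≤ Real.log (3 + Real.log x + Real.log (1 + ‖Λ‖)) := by
      apply Real.log_nonneg
      have := Real.log_nonneg hx
      have := Real.log_nonneg (show (1 : ℝ) ≤ 1 + ‖Λ‖ by linarith)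
      linarith
    have h6 := mul_le_mul_of_nonneg_right (le_max_left C1 C2) h5
    linarith
  · obtain ⟨p, hp, hle, hα⟩ := h2 f Λ α h.satake_ne_zero hraw
    refine ⟨p, hp, hα, hle.trans ?_⟩
    have hl3 : 1 ≤ Real.log (3 + ‖Λ‖) := by
      rw [Real.le_log_iff_exp_le (by linarith)]
      have := Real.exp_one_lt_d9
      linarith
    have h7 : Real.log (3 + ‖Λ‖) ^ C2 ≤ Real.log (3 + ‖Λ‖) ^ (max C1 C2) :=
      Real.rpow_le_rpow_of_exponent_le hl3 (le_max_right _ _)
    have h8 : C2 * (1 + ‖Λ‖) ^ (1 / 6 : ℝ) ≤ max C1 C2 * (1 + ‖Λ‖) ^ (1 / 6 : ℝ) :=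
      mul_le_mul_of_nonneg_right (le_max_right _ _) (by positivity)
    exact mul_le_mul h8 h7 (by positivity) (by positivity)

end Pool.Agent.Results.MP_fa98d2_nt.LeastTemperedPrime
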