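import Mathlib
import Pool.Agent.Helper61.NU.Cor
import Pool.Agent.Helper61.NT.Exist

/-!
# Spherical forms on `PGL_n` which are not tempered at `p`: a pointwise density theorem

Functions on the space of lattices in `ℝ^n` modulo scaling are functions `φ` of subgroups of `ℝ^n` with
`ScaleInv φ`; `lat x` is the lattice generated by the rows of the matrix `x : E n`. The integrals are over a
fundamental domain `F` (`IsFD F`; it exists by `Pool.Agent.Helper61.NT.exists_isFD`) for the group of the integer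
matrices with determinant `± 1` on the set `G1 n` of the matrices with `1 ≤ |det x| ≤ e`.

With modules by helper2, helper35, helper56, helper89, helper94, helper98 and helper99.
-/

set_option autoImplicit false

namespace Pool.Agent.Results.MP_fa98d2_nt.PointwiseDensityGLn

open MeasureTheory Pool.Agent.Helper61.NT Pool.Agent.Helper61.NU

/-- Let `n ≥ 3`, `d = (n - 1) (n + 2) / 2`. For almost every invertible matrix `z` there is a constant `C` such that
for every prime `p`, all `T ≥ 1`, and every finite orthonormal family of Hecke eigenfunctions at `p` (Satake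
parameters `α j`, not tempered) which are spherical with Langlands parameters `μ j`, `|μ j i| ≤ T`:

* the sum of `((K + 1)² + (max_i |α j i|)^(2 (K - n))) |φ j (lat z)|²` is at most `C T^d`, if `p^(4 K) ≤ T`;
* the sum of the `|φ j (lat z)|²` is at most `C T^d (log p / log T)²`;
* if `max_i |α j i| ≥ p^θ` for all `j`, it is at most `C p^(2 θ (n + 1)) T^(d - θ / 2)`. -/
theorem result (n : ℕ) (hn : 3 ≤ n) : ∀ᵐ z : E n, dt z ≠ 0 → ∃ C : ℝ, 0 < C ∧
    ∀ p : ℕ, p.Prime → ∀ T : ℝ, 1 ≤ T →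
    ∀ F : Set (E n), IsFD F → ∀ (ι : Type) [Fintype ι] (φ : ι → AddSubgroup (Fin n → ℝ) → ℂ)
      (α μ : ι → Fin n → ℂ), Family F p φ α → (∀ j, Spherical (φ j) (μ j)) → (∀ j i, ‖μ j i‖ ≤ T) →
      (∀ j, ∃ i, ‖α j i‖ ≠ 1) →
      (∀ K : ℕ, (p : ℝ) ^ (4 * K) ≤ T →
        ∑ j, (((K : ℝ) + 1) ^ 2 + (⨆ i, ‖α j i‖) ^ (2 * ((K : ℝ) - n))) * ‖φ j (lat z)‖ ^ 2 ≤
          C * T ^ ((n - 1) * (n + 2) / 2)) ∧
      (1 < T → ∑ j, ‖φ j (lat z)‖ ^ 2 ≤
          C * T ^ ((n - 1) * (n + 2) / 2) * (Real.log p / Real.log T) ^ 2) ∧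
      (∀ θ : ℝ, 0 < θ → (∀ j, (p : ℝ) ^ θ ≤ ⨆ i, ‖α j i‖) →
        ∑ j, ‖φ j (lat z)‖ ^ 2 ≤
          C * (p : ℝ) ^ (2 * θ * ((n : ℝ) + 1)) * T ^ ((((n - 1) * (n + 2) / 2 : ℕ) : ℝ) - θ / 2)) := by
  have hn0 : n ≠ 0 := by omega
  filter_upwards [ae_dioP hn, ae_off n] with z hz hoff hd
  exact density_all hn0 hd (rareP4 hn0 hd hoff hz)

end Pool.Agent.Results.MP_fa98d2_nt.PointwiseDensityGLn
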