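import Mathlib
import Pool.Agent.Helper61.NU.LS5
import Pool.Agent.Helper61.NT.Exist

/-!
# The Ramanujan conjecture on average at almost every point: a pointwise large sieve for spherical forms on `PGL_n`

Functions on the space of lattices in `ℝ^n` modulo scaling are functions `φ` of subgroups of `ℝ^n` with
`ScaleInv φ`; `lat x` is the lattice generated by the rows of the matrix `x : E n`, and `N.map (ev x)` is the
sublattice of `lat x` given by the subgroup `N` of `ℤ^n`. The integrals are over a fundamental domain `F` (`IsFD F`;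
it exists by `Pool.Agent.Helper61.NT.exists_isFD`) for the group of the integer matrices with determinant `± 1` on
the set `G1 n` of the matrices with `1 ≤ |det x| ≤ e`.

With modules by helper2, helper35, helper56, helper89, helper94, helper98 and helper99.
-/

set_option autoImplicit false

namespace Pool.Agent.Results.MP_fa98d2_nt.PointwiseLargeSieveGLn

open MeasureTheory Pool.Agent.Helper61.NT Pool.Agent.Helper61.NU

/-- Let `n ≥ 3`. For almost every invertible matrix `z` there is a constant `C` such that for all `M` and `T` with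
`M^5 ≤ T`, every finite orthonormal family of spherical functions `φ j` with Langlands parameters `μ j`,
`|μ j i| ≤ T`, and all finitely supported coefficients `x` on the primitive subgroups of `ℤ^n` of index at most `M`,

* the sum of the `|∑ x_N φ_j(N z)|²` is at most `C T^((n - 1) (n + 2) / 2) ∑ |x_N|²`;
* if the `φ j` are eigenfunctions of the operator `∑ x_N [N]` with the eigenvalues `Λ j`, then the sum of the
  `|Λ_j|² |φ_j(z)|²` is at most `C T^((n - 1) (n + 2) / 2) ∑ |x_N|²`. -/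
theorem result (n : ℕ) (hn : 3 ≤ n) : ∀ᵐ z : E n, dt z ≠ 0 → ∃ C : ℝ, 0 < C ∧
    ∀ M : ℕ, M ≠ 0 → ∀ T : ℝ, (M : ℝ) ^ 5 ≤ T →
    ∀ F : Set (E n), IsFD F → ∀ (ι : Type) [Fintype ι] (φ : ι → AddSubgroup (Fin n → ℝ) → ℂ)
      (μ : ι → Fin n → ℂ), Ortho F φ → (∀ j, Spherical (φ j) (μ j)) → (∀ j i, ‖μ j i‖ ≤ T) →
    ∀ x : AddSubgroup (Fin n → ℤ) →₀ ℂ, (∀ N ∈ x.support, Primitive N ∧ N.index ≠ 0 ∧ N.index ≤ M) →
      ∑ j, ‖x.sum fun N c => c * φ j (N.map (ev z))‖ ^ 2 ≤
        C * T ^ ((n - 1) * (n + 2) / 2) * x.sum (fun _ c => ‖c‖ ^ 2) ∧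
      ∀ Λ : ι → ℂ, (∀ j, ∀ y : E n, dt y ≠ 0 → (x.sum fun N c => c * φ j (N.map (ev y))) = Λ j * φ j (lat y)) →
        ∑ j, ‖Λ j‖ ^ 2 * ‖φ j (lat z)‖ ^ 2 ≤
          C * T ^ ((n - 1) * (n + 2) / 2) * x.sum fun _ c => ‖c‖ ^ 2 := by
  have hn0 : n ≠ 0 := by omega
  filter_upwards [ae_dioA2 hn, ae_off n] with z hz hoff hd
  obtain ⟨C, hC, h⟩ := large_sieve_of_rare hn0 hd 5 (rareA5 hn0 hd hoff hz)
  refine ⟨C, hC, fun M hM T hT F hF ι _ φ μ hφ hS hμ x hx => ?_⟩
  have h1 := h M hM T hT F hF ι φ μ hφ hS hμ x hx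
  refine ⟨h1, fun Λ hΛ => ?_⟩
  refine le_trans (le_of_eq ?_) h1
  refine Finset.sum_congr rfl fun j _ => ?_
  rw [hΛ j z hd, norm_mul, mul_pow]

end Pool.Agent.Results.MP_fa98d2_nt.PointwiseLargeSieveGLn
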